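import Mathlib

set_option autoImplicit false

/-!
# Skew-symmetric linear `(2,p,p)`-AONTs exist for all odd primes

For an odd prime `p` and `c ≠ 0` in `𝔽_p` the matrix with rows and columns indexed by `𝔽_p`, with the
entries `0` at `(0,0)`, `1` at `(0,b)` and `(a,0)`, and `c a / (a - b)` at `(a,b)` (read as `0` for
`a = b`), for `a, b ≠ 0`, is a `c`-skew-symmetric linear `(2,p,p)`-AONT.  There is none for `c = 0`.
-/

namespace Pool.Agent.Results.MP_6c8620_co.SkewAllPrimes

open Polynomial

/-- A linear `(2,s,q)`-AONT: an invertible `s × s` matrix over the field `F` all of whose `2 × 2`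
submatrices (two distinct rows, two distinct columns) are invertible. -/
def IsLinearAONT {s : ℕ} {F : Type} [Field F] (M : Matrix (Fin s) (Fin s) F) : Prop :=
  IsUnit M ∧ ∀ i i' j j' : Fin s, i ≠ i' → j ≠ j' →
    IsUnit (!![M i j, M i j'; M i' j, M i' j'] : Matrix (Fin 2) (Fin 2) F)

/-- Type `p` standard form: the diagonal entries are `0`, the other entries of the first row and of
the first column are `1`. -/
def IsStandardForm {p : ℕ} [NeZero p] (M : Matrix (Fin p) (Fin p) (ZMod p)) : Prop :=
  (∀ i, M i i = 0) ∧ (∀ j, j ≠ 0 → M 0 j = 1) ∧ (∀ i, i ≠ 0 → M i 0 = 1)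

/-- `τ`-skew-symmetry: `m_ij + m_ji = τ` for all distinct `i, j` different from the first index. -/
def IsSkew {p : ℕ} [NeZero p] (τ : ZMod p) (M : Matrix (Fin p) (Fin p) (ZMod p)) : Prop :=
  ∀ i j, i ≠ 0 → j ≠ 0 → i ≠ j → M i j + M j i = τ

variable {p : ℕ} [Fact p.Prime]

/-- The entries of the matrix. -/
def m (c a b : ZMod p) : ZMod p :=
  if a = 0 then (if b = 0 then 0 else 1) else (if b = 0 then 1 else c * a / (a - b))

omit [Fact p.Prime] in
theorem det2 [Fact p.Prime] {w x y z : ZMod p} (h : w * z - x * y ≠ 0) :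
    IsUnit (!![w, x; y, z] : Matrix (Fin 2) (Fin 2) (ZMod p)) := by
  rw [Matrix.isUnit_iff_isUnit_det, Matrix.det_fin_two_of]
  exact isUnit_iff_ne_zero.2 h

theorem row_ne {c a b b' : ZMod p} (hc : c ≠ 0) (ha : a ≠ 0) (hbb : b ≠ b') :
    c * a / (a - b) ≠ c * a / (a - b') := by
  have hca := mul_ne_zero hc ha
  intro h
  by_cases h1 : a - b = 0
  · have h2 : a - b' ≠ 0 := by
      intro h2
      exact hbb (by linear_combination h2 - h1)
    rw [h1, div_zero, eq_comm, div_eq_zero_iff] at h
    tauto
  · by_cases h2 : a - b' = 0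
    · rw [h2, div_zero, div_eq_zero_iff] at h
      tauto
    · rw [div_eq_div_iff h1 h2] at h
      have := mul_left_cancel₀ hca h
      exact hbb (by linear_combination this)

theorem col_ne {c a a' b : ZMod p} (hc : c ≠ 0) (ha : a ≠ 0) (ha' : a' ≠ 0) (hb : b ≠ 0)
    (haa : a ≠ a') : c * a / (a - b) ≠ c * a' / (a' - b) := by
  have hca := mul_ne_zero hc ha
  have hca' := mul_ne_zero hc ha'
  intro h
  by_cases h1 : a - b = 0
  · have h2 : a' - b ≠ 0 := by
      intro h2
      exact haa (by linear_combination h1 - h2)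
    rw [h1, div_zero, eq_comm, div_eq_zero_iff] at h
    tauto
  · by_cases h2 : a' - b = 0
    · rw [h2, div_zero, div_eq_zero_iff] at h
      tauto
    · rw [div_eq_div_iff h1 h2] at h
      have h3 : (c * b) * a = (c * b) * a' := by linear_combination -h
      exact haa (mul_left_cancel₀ (mul_ne_zero hc hb) h3)

theorem minor_ne {c a a' b b' : ZMod p} (hc : c ≠ 0) (ha : a ≠ 0) (ha' : a' ≠ 0)
    (haa : a ≠ a') (hbb : b ≠ b') :
    c * a / (a - b) * (c * a' / (a' - b')) - c * a / (a - b') * (c * a' / (a' - b)) ≠ 0 := by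
  have hca := mul_ne_zero hc ha
  have hca' := mul_ne_zero hc ha'
  intro h
  have h := sub_eq_zero.1 h
  rw [div_mul_div_comm, div_mul_div_comm] at h
  have hprod := mul_ne_zero hca hca'
  by_cases h1 : (a - b) * (a' - b') = 0
  · have h2 : (a - b') * (a' - b) ≠ 0 := by
      rcases mul_eq_zero.1 h1 with h1 | h1
      · refine mul_ne_zero (fun h2 => hbb ?_) (fun h2 => haa ?_)
        · linear_combination h2 - h1
        · linear_combination h1 - h2
      · refine mul_ne_zero (fun h2 => haa ?_) (fun h2 => hbb ?_)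
        · linear_combination h2 - h1
        · linear_combination h1 - h2
    rw [h1, div_zero, eq_comm, div_eq_zero_iff] at h
    tauto
  · by_cases h2 : (a - b') * (a' - b) = 0
    · rw [h2, div_zero, div_eq_zero_iff] at h
      tauto
    · rw [div_eq_div_iff h1 h2] at h
      have h3 := mul_left_cancel₀ hprod h
      have h4 : (a - a') * (b - b') = 0 := by linear_combination -h3
      rcases mul_eq_zero.1 h4 with h5 | h5
      · exact haa (sub_eq_zero.1 h5)
      · exact hbb (sub_eq_zero.1 h5)

/-- All `2 × 2` submatrices are invertible. -/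
theorem minors {c a a' b b' : ZMod p} (hc : c ≠ 0) (haa : a ≠ a') (hbb : b ≠ b') :
    m c a b * m c a' b' - m c a b' * m c a' b ≠ 0 := by
  unfold m
  by_cases ha : a = 0
  · have ha' : a' ≠ 0 := fun h => haa (ha.trans h.symm)
    by_cases hb : b = 0
    · have hb' : b' ≠ 0 := fun h => hbb (hb.trans h.symm)
      simp [ha, ha', hb, hb']
    · by_cases hb' : b' = 0
      · simp [ha, ha', hb, hb']
      · have := row_ne hc ha' hbb
        simp only [ha, ha', hb, hb', if_true, if_false, one_mul]
        exact sub_ne_zero.2 this.symm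
  · by_cases ha' : a' = 0
    · by_cases hb : b = 0
      · have hb' : b' ≠ 0 := fun h => hbb (hb.trans h.symm)
        simp [ha, ha', hb, hb']
      · by_cases hb' : b' = 0
        · simp [ha, ha', hb, hb']
        · have := row_ne hc ha hbb
          simp only [ha, ha', hb, hb', if_true, if_false, mul_one]
          exact sub_ne_zero.2 this
    · by_cases hb : b = 0
      · have hb' : b' ≠ 0 := fun h => hbb (hb.trans h.symm)
        have := col_ne hc ha ha' hb' haa
        simp only [ha, ha', hb, hb', if_true, if_false, one_mul, mul_one]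
        exact sub_ne_zero.2 this.symm
      · by_cases hb' : b' = 0
        · have := col_ne hc ha ha' hb haa
          simp only [ha, ha', hb, hb', if_true, if_false, one_mul, mul_one]
          exact sub_ne_zero.2 this
        · simp only [ha, ha', hb, hb', if_false]
          exact minor_ne hc ha ha' haa hbb

/-- The kernel of the matrix is trivial. -/
theorem kernel (hp : 3 ≤ p) {c : ZMod p} (hc : c ≠ 0) (x : ZMod p → ZMod p)
    (hx : ∀ a, ∑ b, m c a b * x b = 0) : x = 0 := by
  have hprime : p.Prime := Fact.out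
  -- the equation of the row 0
  have h0 : ∑ b ∈ Finset.univ.erase (0 : ZMod p), x b = 0 := by
    have h := hx 0
    rw [← Finset.add_sum_erase _ _ (Finset.mem_univ (0 : ZMod p))] at h
    have h1 : m c 0 0 = 0 := by simp [m]
    rw [h1, zero_mul, zero_add] at h
    refine Eq.trans (Finset.sum_congr rfl fun b hb => ?_) h
    have hb0 : b ≠ 0 := (Finset.mem_erase.1 hb).1
    simp [m, hb0]
  -- the other equations
  have hpow : ∀ t : ZMod p, t ^ (p - 2) = t⁻¹ := by
    intro t
    by_cases ht : t = 0
    · rw [ht, inv_zero, zero_pow (by omega)]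
    · apply eq_inv_of_mul_eq_one_left
      rw [← pow_succ, show p - 2 + 1 = p - 1 by omega, ZMod.pow_card_sub_one_eq_one ht]
  have h1 : ∀ a : ZMod p, a ≠ 0 →
      x 0 + c * a * ∑ b ∈ Finset.univ.erase (0 : ZMod p), x b * (a - b) ^ (p - 2) = 0 := by
    intro a ha
    have h := hx a
    rw [← Finset.add_sum_erase _ _ (Finset.mem_univ (0 : ZMod p))] at h
    have h1 : m c a 0 = 1 := by simp [m, ha]
    rw [h1, one_mul] at h
    refine Eq.trans ?_ h
    rw [Finset.mul_sum]
    congr 1
    refine Finset.sum_congr rfl fun b hb => ?_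
    have hb0 : b ≠ 0 := (Finset.mem_erase.1 hb).1
    rw [hpow]
    simp only [m, ha, hb0, if_false]
    ring
  set s := Finset.univ.erase (0 : ZMod p) with hs
  have hcard : s.card = p - 1 := by
    rw [hs, Finset.card_erase_of_mem (Finset.mem_univ _), Finset.card_univ, ZMod.card]
  set R : (ZMod p)[X] := ∑ b ∈ s, C (x b) * (X - C b) ^ (p - 2) with hR
  have hRdeg : R.natDegree ≤ p - 2 := by
    refine natDegree_sum_le_of_forall_le _ _ fun b _ => ?_
    refine (natDegree_C_mul_le _ _).trans ?_
    rw [natDegree_pow, natDegree_X_sub_C, mul_one]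
  have hRcoeff : R.coeff (p - 2) = 0 := by
    rw [hR, finsetSum_coeff]
    refine Eq.trans (Finset.sum_congr rfl fun b _ => ?_) h0
    rw [coeff_C_mul]
    have h2 : ((X - C b) ^ (p - 2)).coeff (p - 2) = 1 := by
      have h3 := (monic_X_sub_C b).pow (p - 2)
      have h4 : ((X - C b) ^ (p - 2)).natDegree = p - 2 := by
        rw [natDegree_pow, natDegree_X_sub_C, mul_one]
      have h5 := h3.coeff_natDegree
      rwa [h4] at h5
    rw [h2, mul_one]
  set Q : (ZMod p)[X] := C (x 0) + C c * (X * R) with hQ
  have hQ0 : Q = 0 := by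
    refine eq_zero_of_natDegree_lt_card_of_eval_eq_zero' Q s (fun a ha => ?_) ?_
    · refine Eq.trans ?_ (h1 a (Finset.mem_erase.1 ha).1)
      rw [hQ, hR]
      simp only [eval_add, eval_C, eval_mul, eval_X, eval_finsetSum, eval_pow, eval_sub]
      ring
    · rw [hcard]
      have hle : Q.natDegree ≤ p - 2 → Q.natDegree < p - 1 := fun h => by omega
      refine hle (natDegree_le_iff_coeff_eq_zero.2 fun N hN => ?_)
      obtain ⟨N, rfl⟩ : ∃ N', N = N' + 1 := ⟨N - 1, by omega⟩
      rw [hQ, coeff_add, coeff_C_mul, coeff_X_mul, coeff_C, if_neg (by omega), zero_add]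
      rcases Nat.lt_or_ge (p - 2) N with h | h
      · rw [coeff_eq_zero_of_natDegree_lt (lt_of_le_of_lt hRdeg h), mul_zero]
      · rw [show N = p - 2 by omega, hRcoeff, mul_zero]
  have hx0 : x 0 = 0 := by
    have h := congrArg (fun t => Polynomial.coeff t 0) hQ0
    simpa [hQ] using h
  have hR0 : R = 0 := by
    rw [hQ, hx0, C_0, zero_add] at hQ0
    have h2 : (C c : (ZMod p)[X]) ≠ 0 := C_ne_zero.2 hc
    rcases mul_eq_zero.1 hQ0 with h | h
    · exact absurd h h2
    · rcases mul_eq_zero.1 h with h | h
      · exact absurd h X_ne_zero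
      · exact h
  -- the primitive of `R`
  set W : (ZMod p)[X] := ∑ b ∈ s, C (x b) * (X - C b) ^ (p - 1) with hW
  have hWder : derivative W = 0 := by
    have h2 : derivative W = C ((p - 1 : ℕ) : ZMod p) * R := by
      rw [hW, hR, derivative_sum, Finset.mul_sum]
      refine Finset.sum_congr rfl fun b _ => ?_
      rw [derivative_C_mul, derivative_X_sub_C_pow, show p - 1 - 1 = p - 2 by omega]
      simp only [map_natCast]
      ring
    rw [h2, hR0, mul_zero]
  have hWdeg : W.natDegree ≤ p - 1 := by
    refine natDegree_sum_le_of_forall_le _ _ fun b _ => ?_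
    refine (natDegree_C_mul_le _ _).trans ?_
    rw [natDegree_pow, natDegree_X_sub_C, mul_one]
  have hWconst : W = C (W.coeff 0) := by
    refine eq_C_of_natDegree_le_zero (natDegree_le_iff_coeff_eq_zero.2 fun N hN => ?_)
    rcases Nat.lt_or_ge (p - 1) N with h | h
    · exact coeff_eq_zero_of_natDegree_lt (lt_of_le_of_lt hWdeg h)
    · obtain ⟨N, rfl⟩ : ∃ N', N = N' + 1 := ⟨N - 1, by omega⟩
      have h2 := congrArg (fun t => Polynomial.coeff t N) hWder
      simp only [coeff_derivative, coeff_zero] at h2
      rcases mul_eq_zero.1 h2 with h3 | h3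
      · exact h3
      · exfalso
        have h4 : ((N + 1 : ℕ) : ZMod p) = 0 := by push_cast; exact h3
        rw [ZMod.natCast_eq_zero_iff] at h4
        have := Nat.le_of_dvd (by omega) h4
        omega
  have hWeval : ∀ a : ZMod p, W.eval a = ∑ b ∈ s, x b * (a - b) ^ (p - 1) := by
    intro a
    rw [hW]
    simp only [eval_mul, eval_C, eval_X, eval_finsetSum, eval_pow, eval_sub]
  have hpow1 : ∀ t : ZMod p, t ≠ 0 → t ^ (p - 1) = 1 := fun t ht =>
    ZMod.pow_card_sub_one_eq_one ht
  have hW0 : W.eval 0 = 0 := by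
    rw [hWeval]
    refine Eq.trans (Finset.sum_congr rfl fun b hb => ?_) h0
    rw [hpow1 _ (by rw [zero_sub]; exact neg_ne_zero.2 (Finset.mem_erase.1 hb).1), mul_one]
  funext a
  by_cases ha : a = 0
  · rw [ha]; exact hx0
  · have ha' : a ∈ s := Finset.mem_erase.2 ⟨ha, Finset.mem_univ _⟩
    have h2 : W.eval a = 0 := by
      rw [hWconst, eval_C] at hW0
      rw [hWconst, eval_C]
      exact hW0
    rw [hWeval, ← Finset.add_sum_erase _ _ ha'] at h2
    rw [← Finset.add_sum_erase _ _ ha'] at h0
    have h3 : ∑ b ∈ s.erase a, x b * (a - b) ^ (p - 1) = ∑ b ∈ s.erase a, x b := by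
      refine Finset.sum_congr rfl fun b hb => ?_
      rw [hpow1 _ (sub_ne_zero.2 (Finset.mem_erase.1 hb).1.symm), mul_one]
    rw [h3, sub_self, zero_pow (by omega), mul_zero, zero_add] at h2
    rw [h2, add_zero] at h0
    exact h0

/-- Skew-symmetric matrices in standard form (`τ = 0`) are singular. -/
theorem det_zero (hp : 3 ≤ p) (M : Matrix (Fin p) (Fin p) (ZMod p)) (hM : IsStandardForm M)
    (hs : IsSkew 0 M) : M.det = 0 := by
  have hprime : p.Prime := Fact.out
  set J : Matrix (Fin p) (Fin p) (ZMod p) :=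
    Matrix.diagonal (fun i => if i = 0 then -1 else 1) with hJ
  have hJM : J * M * J = -M.transpose := by
    ext i j
    rw [hJ, Matrix.mul_diagonal, Matrix.diagonal_mul, Matrix.neg_apply, Matrix.transpose_apply]
    by_cases hi : i = 0
    · by_cases hj : j = 0
      · subst hi hj
        simp [hM.1 0]
      · subst hi
        rw [hM.2.1 j hj, hM.2.2 j hj]
        simp [hj]
    · by_cases hj : j = 0
      · subst hj
        rw [hM.2.1 i hi, hM.2.2 i hi]
        simp [hi]
      · by_cases hij : i = j
        · subst hij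
          simp [hM.1 i]
        · have := hs i j hi hj hij
          simp only [hi, hj, if_false, one_mul, mul_one]
          exact eq_neg_of_add_eq_zero_left this
  have hJ2 : J.det * J.det = 1 := by
    rw [← Matrix.det_mul, hJ, Matrix.diagonal_mul_diagonal]
    have : (fun i : Fin p => (if i = 0 then (-1 : ZMod p) else 1) * (if i = 0 then -1 else 1))
        = fun _ => 1 := by
      funext i
      split_ifs <;> ring
    rw [this, Matrix.diagonal_one, Matrix.det_one]
  have hodd : Odd p := hprime.odd_of_ne_two (by omega)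
  have h := congrArg Matrix.det hJM
  rw [Matrix.det_mul, Matrix.det_mul, Matrix.det_neg, Matrix.det_transpose, Fintype.card_fin,
    hodd.neg_one_pow] at h
  have h2 : (2 : ZMod p) * M.det = 0 := by
    linear_combination h - M.det * hJ2
  rcases mul_eq_zero.1 h2 with h3 | h3
  · exfalso
    have h4 : ((2 : ℕ) : ZMod p) = 0 := by exact_mod_cast h3
    rw [ZMod.natCast_eq_zero_iff] at h4
    have := Nat.le_of_dvd (by omega) h4
    omega
  · exact h3

/-- For every odd prime `p` and every `τ` in `𝔽_p` there is a `τ`-skew-symmetric linear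
`(2,p,p)`-AONT in type `p` standard form if and only if `τ ≠ 0`. -/
theorem result (p : ℕ) [Fact p.Prime] (hp : 3 ≤ p) (τ : ZMod p) :
    (∃ M : Matrix (Fin p) (Fin p) (ZMod p), IsLinearAONT M ∧ IsStandardForm M ∧ IsSkew τ M) ↔
      τ ≠ 0 := by
  constructor
  · rintro ⟨M, ⟨hM, -⟩, hst, hsk⟩ rfl
    rw [Matrix.isUnit_iff_isUnit_det, det_zero hp M hst hsk] at hM
    exact not_isUnit_zero hM
  · intro hτ
    let e : Fin p ≃ ZMod p := (ZMod.finEquiv p).toEquiv
    have he0 : e 0 = 0 := map_zero (ZMod.finEquiv p)
    have hne : ∀ i, i ≠ 0 → e i ≠ 0 := fun i hi h => hi (e.injective (h.trans he0.symm))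
    refine ⟨Matrix.of fun i j => m τ (e i) (e j), ⟨?_, ?_⟩, ⟨?_, ?_, ?_⟩, ?_⟩
    · rw [← Matrix.mulVec_injective_iff_isUnit]
      rw [← Matrix.coe_mulVecLin, injective_iff_map_eq_zero]
      intro v hv
      have h1 : (fun b => v (e.symm b)) = 0 := by
        refine kernel hp hτ _ fun a => ?_
        have h2 := congrFun hv (e.symm a)
        rw [Matrix.mulVecLin_apply, Matrix.mulVec, dotProduct] at h2
        rw [← e.sum_comp]
        simpa using h2
      funext i
      have h2 := congrFun h1 (e i)
      simpa using h2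
    · intro i i' j j' hi hj
      exact det2 (minors hτ (fun h => hi (e.injective h)) (fun h => hj (e.injective h)))
    · intro i
      by_cases hi : i = 0
      · simp [m, hi, he0]
      · simp [m, hne i hi]
    · intro j hj
      simp [m, he0, hne j hj]
    · intro i hi
      simp [m, he0, hne i hi]
    · intro i j hi hj hij
      have h1 : e i - e j ≠ 0 := sub_ne_zero.2 fun h => hij (e.injective h)
      have h2 : e j - e i ≠ 0 := sub_ne_zero.2 fun h => hij (e.injective h).symm
      simp only [Matrix.of_apply, m, hne i hi, hne j hj, if_false]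
      field_simp
      ring

end Pool.Agent.Results.MP_6c8620_co.SkewAllPrimes
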